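import Pool.Agent.Helper23_TS.Stmts

/-!
RE: reduction of an approximation modulo the uniformizer.
-/

open Polynomial

namespace Pool.Agent.TS.H3

open H12UBI H58UB Pool.Agent.TS

theorem y0_zero {k : Type} [CommRing k] {g : ℕ} {h r : k[X]} (S : Shape g h r) (hr : r = 0) :
    y0 S = 0 := by
  refine unique_y0 S (ge_y0 S) (ge_zero 1) (y0_eq S) ?_
  rw [hr]
  simp

theorem ge_of_D {V : Type} [CommRing V] [IsDomain V] [IsDiscreteValuationRing V] {π : V}
    (hπ : Irreducible π) {t : ℕ} (ht : 1 ≤ t) {n : ℤ} {s : LaurentSeries V} (hs : D (π ^ t) n s) :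
    Ge n (lmap (IsLocalRing.residue V) s) := by
  intro i hi
  rw [coeff_lmap, IsLocalRing.residue_eq_zero_iff, IsLocalRing.mem_maximalIdeal, mem_nonunits_iff]
  intro hu
  have h1 : π ∣ s.coeff i := (dvd_pow_self π (by omega)).trans (hs i hi)
  exact hπ.not_isUnit (isUnit_of_dvd_unit h1 hu)

theorem re (st : StStmt) : ReStmt := by
  intro V _ _ _ g h r ρ c π dat S t j w s ht lev
  set φ : V →+* IsLocalRing.ResidueField V := IsLocalRing.residue V with hφ
  have hc0 : φ c = 0 := by
    rw [hφ, IsLocalRing.residue_eq_zero_iff, IsLocalRing.mem_maximalIdeal, mem_nonunits_iff]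
    intro hu
    exact dat.irr.not_isUnit (isUnit_of_dvd_unit dat.pc hu)
  have hr0 : r.map φ = 0 := by
    rw [dat.hr, Polynomial.map_mul, Polynomial.map_C, hc0, map_zero, zero_mul]
  set S' := smap S φ with hS'
  have hy : y0 S' = 0 := y0_zero S' hr0
  obtain ⟨b', h1, h2⟩ := st V g h r ρ c π dat j w s lev.pr
  have hmon : (rd V h).Monic := S.monic.map _
  have hdeg : (rd V h).natDegree = g + 1 := S'.deg
  -- the element `s`
  have g0 : Ge 0 (ex _ (rd V s.re)) := by
    have := ge_of_D dat.irr ht lev.d0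
    rw [← hφ, lmap_e0, e0_apply, ← hS', hy, mul_zero, add_zero, cmap_re] at this
    exact this
  have hsa := eq_C_of_ge_zero g0
  set a := (rd V s.re).coeff 0 with ha
  have ha0 : a ≠ 0 := by
    intro h0
    apply lev.ne
    rw [hsa, h0, map_zero]
  -- the element `w`
  have g1 : Ge (-(((g + 1) * j : ℕ) : ℤ)) (ex _ (rd V (w.re - h * w.im))) := by
    have := ge_of_D dat.irr ht lev.d1
    rw [← hφ, lmap_e1, e1_apply, ← hS', hy, cmap_re, cmap_im, sub_zero, mul_neg, ← map_mul,
      ← sub_eq_add_neg, ← map_sub] at this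
    have e : rd V (w.re - h * w.im) = w.re.map φ - w.im.map φ * h.map φ := by
      simp only [rd, Polynomial.map_sub, Polynomial.map_mul, mul_comm, ← hφ]
    rw [e]
    exact this
  have hdw := natDegree_le_of_ge g1
  rw [h1] at hdw
  have key : rd V h ∣ C a - (-rd V ρ) ^ j * b' := by
    refine ⟨rd V s.im, ?_⟩
    have h3 : rd V (s.re - h * s.im) = rd V s.re - rd V h * rd V s.im := by
      simp only [rd, Polynomial.map_sub, Polynomial.map_mul]
    rw [← h2, h3, hsa]
    ring
  have hb0 : b' ≠ 0 := by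
    intro h0
    rw [h0, mul_zero, sub_zero] at key
    have h4 : (C a).natDegree = 0 := natDegree_C a
    have h5 := Polynomial.natDegree_le_of_dvd key (by rwa [Ne, C_eq_zero])
    omega
  have hbd : b'.natDegree = 0 := by
    rw [(hmon.pow j).natDegree_mul' hb0, hmon.natDegree_pow, hdeg] at hdw
    have : j * (g + 1) = (g + 1) * j := mul_comm _ _
    omega
  have hbC := eq_C_of_natDegree_eq_zero hbd
  refine ⟨a, b'.coeff 0, ha0, ?_, hsa, ?_, ?_⟩
  · intro h0
    apply hb0
    rw [hbC, h0, map_zero]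
  · rw [← hbC, h1, mul_comm]
  · rw [← hbC]
    exact key

end Pool.Agent.TS.H3
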